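import Pool.Agent.R671.MP.Asm

/-!
# Mandelbrot percolation: the conformal upper box dimension is smaller than the box dimension

For all `d ≥ 1`, `n ≥ 2` and `n ^ (-d) < p < 1`, almost every sample `F` of Mandelbrot percolation
with parameters `(d, n, p)` is empty or has conformal upper box dimension strictly smaller than its
upper box dimension.
-/

open MeasureTheory
open Pool.Agent.R671.MP

namespace Pool.Agent.Results.MP_c03e51_gt.ConformalBoxDrop

theorem result (d n : ℕ) (hd : 1 ≤ d) (hn : 2 ≤ n) (p : unitInterval) (hp : (p : ℝ) < 1)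
    (hp' : 1 / (n : ℝ) ^ d < p) :
    ∀ᵐ ω ∂(law d n p), (F ω).Nonempty → confUpperBoxDim (F ω) < upperBoxDim (F ω) :=
  main d n hd hn p hp hp'

end Pool.Agent.Results.MP_c03e51_gt.ConformalBoxDrop
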